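import Pool.Agent.Helper93.KP.St
import Pool.Agent.Helper15.TW.M_BIL

/-!
# Project KP: module FRQ (Fourier expansion of two congruence conditions)
-/

set_option autoImplicit false

noncomputable section

namespace Pool.Agent.Helper35.KP

open Finset Filter Topology Pool.Agent.Helper93.KP
open Pool.Agent.Helper15.AB (ee)
open Pool.Agent.Helper15.AB.hPQ (ee_add ee_congr)
open Pool.Agent.Helper9.TW (iv StFOU)
open Pool.Agent.Helper15.TW (bil_iv)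

private theorem frq_cop (r m : ℕ) (x : ℤ) (hm : Nat.Coprime m r) (h : (r : ℤ) ∣ (m : ℤ) * x) :
    (r : ℤ) ∣ x := by
  have h1 : IsCoprime (r : ℤ) (m : ℤ) := Nat.isCoprime_iff_coprime.2 hm.symm
  exact h1.dvd_of_dvd_mul_left h

private theorem frq_iv (r m n : ℕ) (hr : 1 ≤ r) (hm : Nat.Coprime m r) (hn : Nat.Coprime n r) :
    (r : ℤ) ∣ (iv r m : ℤ) * (iv r n : ℤ) - (iv r (m * n) : ℤ) := by
  have hmn : Nat.Coprime (m * n) r := Nat.Coprime.mul_left hm hn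
  have h1 := bil_iv r m hr hm
  have h2 := bil_iv r n hr hn
  have h3 := bil_iv r (m * n) hr hmn
  apply frq_cop r (m * n) _ hmn
  have h4 : ((m * n : ℕ) : ℤ) * ((iv r m : ℤ) * (iv r n : ℤ) - (iv r (m * n) : ℤ)) =
      ((m : ℤ) * (iv r m : ℤ) - 1) * ((n : ℤ) * (iv r n : ℤ)) + ((n : ℤ) * (iv r n : ℤ) - 1) -
        (((m * n : ℕ) : ℤ) * (iv r (m * n) : ℤ) - 1) := by
    push_cast
    ring
  rw [h4]
  exact dvd_sub (dvd_add (Dvd.dvd.mul_right h1 _) h2) h3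

private theorem frq_iff (r m : ℕ) (x w e : ℤ) (hr : 1 ≤ r) (hm : Nat.Coprime m r)
    (hw : (r : ℤ) ∣ w - x * (iv r m : ℤ)) :
    (r : ℤ) ∣ (m : ℤ) * e - x ↔ (r : ℤ) ∣ e - w := by
  have h1 := bil_iv r m hr hm
  have h2 : (m : ℤ) * e - x = (m : ℤ) * (e - w) +
      ((m : ℤ) * (w - x * (iv r m : ℤ)) + x * ((m : ℤ) * (iv r m : ℤ) - 1)) := by ring
  have h3 : (r : ℤ) ∣ (m : ℤ) * (w - x * (iv r m : ℤ)) + x * ((m : ℤ) * (iv r m : ℤ) - 1) :=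
    dvd_add (Dvd.dvd.mul_left hw _) (Dvd.dvd.mul_left h1 _)
  rw [h2, dvd_add_left h3]
  exact ⟨fun h => frq_cop r m _ hm h, fun h => Dvd.dvd.mul_left h _⟩

private theorem frq_split (e₀ q' : ℕ) (he : 1 ≤ e₀) (hq : 1 ≤ q') (A B : ℤ) :
    ee (((A * q' + B * e₀ : ℤ) : ℝ) / ((e₀ * q' : ℕ) : ℝ)) =
      ee ((A : ℝ) / e₀) * ee ((B : ℝ) / q') := by
  rw [← ee_add]
  congr 1
  have h1 : (e₀ : ℝ) ≠ 0 := by
    have : (0 : ℝ) < e₀ := by exact_mod_cast he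
    exact this.ne'
  have h2 : (q' : ℝ) ≠ 0 := by
    have : (0 : ℝ) < q' := by exact_mod_cast hq
    exact this.ne'
  push_cast
  field_simp

theorem hFRQ (hF : StFOU) : StFRQ := by
  intro e₀ q' E₁ E₂ he hq hcop hE
  have hr : 1 ≤ e₀ * q' := Nat.mul_pos he hq
  obtain ⟨f, f', hff, hfou⟩ := hF (e₀ * q') E₁ E₂ hr hE
  have hcast : ((e₀ * q' : ℕ) : ℝ) = (e₀ : ℝ) * q' := by push_cast; ring
  refine ⟨f, f', ?_, ?_⟩
  · intro h hh
    have h1 := hff h hh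
    rwa [hcast] at h1
  · intro q k' x₀ c hqc hk
    have hqe : Nat.Coprime q e₀ := Nat.Coprime.coprime_mul_right_right hqc
    have hqq : Nat.Coprime q q' := Nat.Coprime.coprime_mul_left_right hqc
    have hkq : Nat.Coprime (k' * q) q' := Nat.Coprime.mul_left hk hqq
    obtain ⟨v, hv⟩ : ∃ v : ℤ, v = x₀ * (iv e₀ q : ℤ) * (iv e₀ q' : ℤ) * q' +
      c * (iv q' (k' * q) : ℤ) * (iv q' e₀ : ℤ) * e₀ := ⟨_, rfl⟩
    have hv1 : (e₀ : ℤ) ∣ v - x₀ * (iv e₀ q : ℤ) := by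
      have h1 := bil_iv e₀ q' he hcop.symm
      have h2 : v - x₀ * (iv e₀ q : ℤ) = x₀ * (iv e₀ q : ℤ) * ((q' : ℤ) * (iv e₀ q' : ℤ) - 1) +
          (c * (iv q' (k' * q) : ℤ) * (iv q' e₀ : ℤ)) * (e₀ : ℤ) := by rw [hv]; ring
      rw [h2]
      exact dvd_add (Dvd.dvd.mul_left h1 _) (dvd_mul_left _ _)
    have hv2 : (q' : ℤ) ∣ v - c * (iv q' (k' * q) : ℤ) := by
      have h1 := bil_iv q' e₀ hq hcop
      have h2 : v - c * (iv q' (k' * q) : ℤ) =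
          c * (iv q' (k' * q) : ℤ) * ((e₀ : ℤ) * (iv q' e₀ : ℤ) - 1) +
          (x₀ * (iv e₀ q : ℤ) * (iv e₀ q' : ℤ)) * (q' : ℤ) := by rw [hv]; ring
      rw [h2]
      exact dvd_add (Dvd.dvd.mul_left h1 _) (dvd_mul_left _ _)
    have hfil : (Ioc E₁ E₂).filter (fun e : ℕ => (e₀ : ℤ) ∣ (q : ℤ) * e - x₀ ∧
        (q' : ℤ) ∣ (k' : ℤ) * q * e - c) =
        (Ioc E₁ E₂).filter (fun e : ℕ => ((e₀ * q' : ℕ) : ℤ) ∣ (e : ℤ) - v) := by
      ext e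
      rw [Finset.mem_filter, Finset.mem_filter, frq_iff e₀ q x₀ v e he hqe hv1]
      have h1 : (k' : ℤ) * q * e - c = ((k' * q : ℕ) : ℤ) * e - c := by push_cast; ring
      rw [h1, frq_iff q' (k' * q) c v e hq hkq hv2]
      have h2 : IsCoprime (e₀ : ℤ) (q' : ℤ) := Nat.isCoprime_iff_coprime.2 hcop
      constructor
      · rintro ⟨h3, h4, h5⟩
        refine ⟨h3, ?_⟩
        push_cast
        exact h2.mul_dvd h4 h5
      · rintro ⟨h3, h4⟩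
        push_cast at h4
        exact ⟨h3, (dvd_mul_right _ _).trans h4, (dvd_mul_left _ _).trans h4⟩
    rw [hfil, hfou v, hcast]
    congr 1
    refine Finset.sum_congr rfl fun h _ => ?_
    have hiv : (q' : ℤ) ∣ (iv q' (k' * q) : ℤ) * (iv q' e₀ : ℤ) - (iv q' (e₀ * k' * q) : ℤ) := by
      have h1 := frq_iv q' (k' * q) e₀ hq hkq hcop
      rwa [show e₀ * k' * q = k' * q * e₀ by ring]
    have key : ∀ s : ℤ, ee (((s * v : ℤ) : ℝ) / ((e₀ * q' : ℕ) : ℝ)) =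
        ee (((s * x₀ * (iv e₀ q : ℤ) * (iv e₀ q' : ℤ) : ℤ) : ℝ) / e₀) *
          ee (((s * c * (iv q' (e₀ * k' * q) : ℤ) : ℤ) : ℝ) / q') := by
      intro s
      have h1 : s * v = (s * x₀ * (iv e₀ q : ℤ) * (iv e₀ q' : ℤ)) * q' +
          (s * c * ((iv q' (k' * q) : ℤ) * (iv q' e₀ : ℤ))) * e₀ := by rw [hv]; ring
      rw [h1, frq_split e₀ q' he hq]
      congr 1
      apply ee_congr q' hq
      have h2 : s * c * ((iv q' (k' * q) : ℤ) * (iv q' e₀ : ℤ)) - s * c * (iv q' (e₀ * k' * q) : ℤ) =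
          s * c * ((iv q' (k' * q) : ℤ) * (iv q' e₀ : ℤ) - (iv q' (e₀ * k' * q) : ℤ)) := by ring
      rw [h2]
      exact Dvd.dvd.mul_left hiv _
    rw [← hcast]
    have k1 := key h
    have k2 := key (-(h : ℤ))
    rw [show (-(h : ℤ)) * v = -((h : ℤ) * v) by ring,
      show (-(h : ℤ)) * x₀ * (iv e₀ q : ℤ) * (iv e₀ q' : ℤ) =
        -((h : ℤ) * x₀ * (iv e₀ q : ℤ) * (iv e₀ q' : ℤ)) by ring,
      show (-(h : ℤ)) * c * (iv q' (e₀ * k' * q) : ℤ) =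
        -((h : ℤ) * c * (iv q' (e₀ * k' * q) : ℤ)) by ring] at k2
    rw [k1, k2]

end Pool.Agent.Helper35.KP
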